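import Pool.Agent.Q139.EG.Pic

set_option autoImplicit false

/-!
# The pseudo Picard property of affine varieties for maps given by linear differential equations

Let `V` be an integral affine variety over `ℂ`, given by the prime ideal `I` of `ℂ[x_1, ..., x_n]`.
We consider holomorphic maps `f` from the punctured unit disc to `V` which are given by `s` iterated
linear differential equations, with matrices of size `r` and polynomials of degree at most `e`, the
coefficients of which are ARBITRARY functions holomorphic on the punctured disc and meromorphic at
the puncture (`PicCurve s r e f`): on some domain `Ω` in the punctured disc there are invertible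
matrices `X_1(z), ..., X_s(z)` of size `r` of analytic functions such that the entries of
`X_l'(z) X_l(z)⁻¹` are polynomials with such coefficients, of degree at most `e` in each variable, in
the entries of `X_i(z)`, `X_i(z)⁻¹`, `i < l`, and the coordinates of `f(z)` are such polynomials in
the entries of all these matrices. (The matrices need not be single-valued on the punctured disc. For
`s = 1` the coordinates of `f` are polynomials in solutions of a linear system `X' = A X`, with `A`
meromorphic at the puncture.)

The following are equivalent:

(1) over no extension field `M` of `ℂ` there is a nonconstant curve `p(t) / t ^ m`, `t ≠ 0`, on `V`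
the point `t = 1` of which is generic over `ℂ`;

(2) for every `d` there is ONE proper closed subset `V ∩ {G = 0}` of `V` which contains all
nonconstant curves `p(t) / t ^ m` on `V` with `m`, `deg p_j ≤ d`;

(3) for all `s`, `r`, `e` there is ONE proper closed subset `V ∩ {G = 0}` of `V` such that every
holomorphic map `f` from the punctured unit disc to `V` with `PicCurve s r e f`, the image of which
is not contained in `V ∩ {G = 0}`, extends to a holomorphic map from the disc to projective space.
-/

namespace Pool.Agent.Results.MP_64ff02_ag.PseudoPicard

open MvPolynomial Pool.Agent.Q1.SL Pool.Agent.Q139.EG

theorem result {n : ℕ} {I : Ideal (MvPolynomial (Fin n) ℂ)} (hprime : I.IsPrime) :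
    List.TFAE [¬ GmUniruled I, LauDeg I, PicDeg I] :=
  pic_tfae hprime

end Pool.Agent.Results.MP_64ff02_ag.PseudoPicard
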