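import Pool.Agent.Q139.EG.MainA

set_option autoImplicit false

/-!
# Affine varieties: entire curves given by linear differential equations with small coefficients

Let `V` be an integral affine variety over `ℂ`, given by the prime ideal `I` of `ℂ[x_1, ..., x_n]`.
We consider curves the coordinates of which are given by `s` iterated linear differential equations
with matrices of size `r` and polynomials of degree at most `e` with coefficients in a ring `M` of
functions (`MVec Ω M s r e f`): there are invertible matrices `X_1(z), ..., X_s(z)` of size `r` of
analytic functions on `Ω` such that the entries of `X_l'(z) X_l(z)⁻¹` are polynomials with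
coefficients in `M`, of degree at most `e` in each variable, in the entries of `X_i(z)`,
`X_i(z)⁻¹`, `i < l`, and the coordinates of `f(z)` are such polynomials in the entries of all these
matrices.

The following are equivalent:

(1) over no extension field `K` of `ℂ` there is a nonconstant curve `p(t) / t ^ m`, `t ≠ 0`, on `V`
the point `t = 1` of which is generic over `ℂ`;

(2) for every `d` there is ONE proper closed subset `V ∩ {G = 0}` of `V` which contains all
nonconstant curves `p(t) / t ^ m` on `V` with `m`, `deg p_j ≤ d`;

(3) for all `s`, `r`, `e` there are `d` and ONE proper closed subset `V ∩ {G = 0}` of `V` such that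
for all domains `Ω` and ALL rings `M` of analytic functions on `Ω` which contain the constants and
are closed under differentiation, every curve `f : Ω → V` with `MVec Ω M s r e f` lies in
`V ∩ {G = 0}` or is algebraic of degree at most `d` over `M`;

(4) for all `s`, `r`, `e` there is ONE proper closed subset `V ∩ {G = 0}` of `V` which contains all
nonconstant entire curves `f : ℂ → V` which are given by `s` iterated linear differential equations
as above with SMALL coefficients: meromorphic functions `a` on the plane such that
`T(r, a^(k)) = o(T(r, f))` for all `k` (`SmallCurveA s r e f`);

(5) for all `s`, `r`, `e` there are `N` and ONE proper closed subset `V ∩ {G = 0}` of `V` such that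
for all subgroups `L` of the plane every entire curve `f : ℂ → V` which is given by `s` iterated
linear differential equations as above with arbitrary meromorphic coefficients with the periods `L`
(`PerCurveA L s r e f`) lies in `V ∩ {G = 0}` or is invariant under a subgroup of index at most `N`
of `L`, and constant if `L` contains a lattice.
-/

namespace Pool.Agent.Results.MP_64ff02_ag.SmallPseudoBrody

open MvPolynomial Pool.Agent.Q1.SL Pool.Agent.Q139.EG

theorem result {n : ℕ} {I : Ideal (MvPolynomial (Fin n) ℂ)} (hprime : I.IsPrime) :
    List.TFAE [¬ GmUniruled I, LauDeg I, GenDegA I, SmallDegA I, PerDegA I] :=
  genA_tfae hprime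

end Pool.Agent.Results.MP_64ff02_ag.SmallPseudoBrody
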