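import Pool.Agent.Q309.DU.UniF

set_option autoImplicit false

/-!
# Entire curves given by functional equations: bounds which are uniform in the variety

We consider holomorphic maps `f : ℂ → X` to closed subsets `X` of the complex projective `n`-space
with meromorphic homogeneous coordinates `h_j` each of which satisfies a nontrivial linear functional
equation `∑ P_k (t z) h_j (σ^k z) = 0`, `k ≤ r`, with polynomials `P_k` of degree at most `e`
(`LinCurve r e σ t f`). Here `σ` is a nonconstant entire function and `t` is an entire function with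
`t (σ z) = α t z + β` for some constants `α`, `β`; for instance `σ z = q z` and `t z = z`
(`q`-difference equations), `σ z = z + b` and `t z = z` (difference equations) or `σ z = z + b` and
`t z = exp (c z)` (difference equations with exponential coefficients).

For all `n`, `D`, `r`, `e` there is ONE number `d` such that the following holds for ALL closed
subsets `X` of projective `n`-space which are defined by forms of degree at most `D`.

(1) For all `σ`, `t` as above such that `t ∘ σ^k ≠ t` for `0 < k ≤ d`, all such curves `f` in `X`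
satisfy `f ∘ σ^k = f` for some `0 < k ≤ d`, or `f` is contained in every hypersurface of degree at
most `D` which contains all nonconstant rational curves of degree at most `d` on `X`.

(2) If `X` contains no nonconstant rational curve of degree at most `d`, then for all complex numbers
`q` which are not zero and not roots of unity all entire curves in `X` given by `q`-difference
equations of order at most `r` with polynomial coefficients of degree at most `e` are constant, and
for all `b ≠ 0` all entire curves in `X` given by difference equations of this kind, `σ z = z + b`,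
have the period `k b` for some `0 < k ≤ d`.

(3) Conversely, nonconstant rational curves of degree at most `d` on `X` are entire curves given by
`q`-difference equations of order at most `1` with coefficients of degree at most `d`.
-/

namespace Pool.Agent.Results.MP_64ff02_ag.UniformFunctionalCurves

open MvPolynomial Pool.Agent.Q1.SL Pool.Agent.Q309.DU
open Pool.Agent.TH143.EL (HolMap)
open scoped LinearAlgebra.Projectivization

theorem result (n : ℕ) :
    (∀ D r e : ℕ, ∃ d : ℕ, ∀ S : Set (MvPolynomial (Fin (n + 1)) ℂ),
      (∀ F ∈ S, ∃ e, e ≤ D ∧ F.IsHomogeneous e) →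
      (∀ (σ t : ℂ → ℂ) (α β : ℂ), Differentiable ℂ σ → (∃ z w, σ z ≠ σ w) → Differentiable ℂ t →
        (∀ z, t (σ z) = α * t z + β) → (∀ k, 0 < k → k ≤ d → ∃ z, t (σ^[k] z) ≠ t z) →
        ∀ f : ℂ → ℙ ℂ (Fin (n + 1) → ℂ), HolMap f → (∀ z, ∀ F ∈ S, eval (f z).rep F = 0) →
          LinCurve r e σ t f →
          (∀ G : MvPolynomial (Fin (n + 1)) ℂ, (∃ e, e ≤ D ∧ G.IsHomogeneous e) → RatIn S G d →
            ∀ z, eval (f z).rep G = 0) ∨ ∃ k, 0 < k ∧ k ≤ d ∧ ∀ z, f (σ^[k] z) = f z) ∧
      (RatIn S 1 d → ∀ f : ℂ → ℙ ℂ (Fin (n + 1) → ℂ), HolMap f →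
        (∀ z, ∀ F ∈ S, eval (f z).rep F = 0) →
        (∀ q : ℂ, q ≠ 0 → (∀ m : ℕ, 0 < m → q ^ m ≠ 1) →
          LinCurve r e (fun z => q * z) (fun z => z) f → ∀ z w, f z = f w) ∧
        (∀ b : ℂ, b ≠ 0 → LinCurve r e (fun z => z + b) (fun z => z) f →
          ∃ k : ℕ, 0 < k ∧ k ≤ d ∧ ∀ z, f (z + k * b) = f z))) ∧
    (∀ (d : ℕ) (S : Set (MvPolynomial (Fin (n + 1)) ℂ)) (G : MvPolynomial (Fin (n + 1)) ℂ),
      (∀ F ∈ S, ∃ e, F.IsHomogeneous e) → (∃ e, G.IsHomogeneous e) → ∀ q : ℂ,
      (∀ f : ℂ → ℙ ℂ (Fin (n + 1) → ℂ), HolMap f → (∀ z, ∀ F ∈ S, eval (f z).rep F = 0) →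
        (∃ z w, f z ≠ f w) → LinCurve 1 d (fun z => q * z) (fun z => z) f →
          ∀ z, eval (f z).rep G = 0) → RatIn S G d) := by
  refine ⟨fun D r e => ?_, fun d S G hS hG q h => ratIn_of_q hS hG h⟩
  obtain ⟨d, hd⟩ := fun_uniform n D r e
  refine ⟨d, fun S hS => ⟨hd S hS, fun hR f hf hX => ⟨fun q hq0 hqr hl => ?_,
    fun b hb hl => ?_⟩⟩⟩
  · rcases hd S hS (fun z => q * z) (fun z => z) q 0 (differentiable_id.const_mul q)
      ⟨0, 1, by simpa using hq0.symm⟩ differentiable_id (fun z => by simp) (fun k hk _ => ⟨1, by
        simp only [mul_iter, mul_one]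
        exact hqr k hk⟩) f hf hX hl with h1 | ⟨k, hk, -, hinv⟩
    · exfalso
      have h2 := h1 1 ⟨0, Nat.zero_le _, isHomogeneous_one _ _⟩ hR 0
      rw [map_one] at h2
      exact one_ne_zero h2
    · exact fun z w => const_of_dil hqr hf hl hk hinv z w
  · have hit : ∀ (k : ℕ) (z : ℂ), (fun z => z + b)^[k] z = z + k * b := by
      intro k
      induction k with
      | zero => intro z; simp
      | succ k ih =>
        intro z
        rw [Function.iterate_succ_apply, ih]
        push_cast
        ring
    rcases hd S hS (fun z => z + b) (fun z => z) 1 b (differentiable_id.add_const b)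
      ⟨0, 1, by simp⟩ differentiable_id (fun z => by ring) (fun k hk _ => ⟨0, by
        simp only [hit, zero_add]
        exact mul_ne_zero (by exact_mod_cast hk.ne') hb⟩) f hf hX hl with h1 | ⟨k, hk, hkd, hinv⟩
    · exfalso
      have h2 := h1 1 ⟨0, Nat.zero_le _, isHomogeneous_one _ _⟩ hR 0
      rw [map_one] at h2
      exact one_ne_zero h2
    · exact ⟨k, hk, hkd, fun z => by rw [← hit]; exact hinv z⟩

end Pool.Agent.Results.MP_64ff02_ag.UniformFunctionalCurves
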