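import Pool.Agent.Q1.SL.UnifA

set_option autoImplicit false

/-!
# Entire curves of bounded complexity in affine varieties force Laurent curves of bounded degree

We consider curves `f : Ω → V` on arbitrary domains `Ω` of the plane (for instance entire curves,
`Ω = ℂ`), on closed subsets `V` of the complex affine `n`-space, with coordinates given by `s`
iterated linear differential equations with matrices of size `r` and polynomials of degree at most
`e` (`DVec Ω s r e f`): there are invertible matrices `X_1(z), ..., X_s(z)` of size `r` of analytic
functions on `Ω` such that the entries of `X_l'(z) X_l(z)⁻¹` are values of polynomials with constant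
coefficients, of degree at most `e` in each variable, at the entries of `X_i(z)`, `X_i(z)⁻¹`,
`i < l`, and the coordinates of `f(z)` are values of such polynomials at the entries of all these
matrices.

For all `n`, `D`, `s`, `r`, `e` there is a number `d` such that for ALL closed subsets `V` of affine
`n`-space defined by polynomials of degree at most `D` and all polynomials `G` of degree at most
`D`: if there is a nonconstant curve `f : Ω → V` as above, on some domain `Ω`, whose image is not
contained in `G = 0`, then there is a nonconstant Laurent curve `p(t) / t ^ m`, `t ≠ 0`, on `V` with
`m` and the degrees of the `p_j` at most `d` which is not contained in `G = 0`.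

For `G = 1`: if `V` contains no image of the punctured line of degree at most `d`, where `d` depends
only on the dimension of the space, the degrees of the equations and the complexity of the curves,
then all entire curves of this complexity in `V` are constant.
-/

namespace Pool.Agent.Results.MP_64ff02_ag.UniformLaurentCurves

open MvPolynomial Pool.Agent.Q1.SL

theorem result (n D s r e : ℕ) : ∃ d : ℕ,
    ∀ (S : Set (MvPolynomial (Fin n) ℂ)) (G : MvPolynomial (Fin n) ℂ),
      (∀ F ∈ S, F.totalDegree ≤ D) → G.totalDegree ≤ D → LauIn S G d → OdeInA S G s r e :=
  ode_uniformA n D s r e

end Pool.Agent.Results.MP_64ff02_ag.UniformLaurentCurves
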